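import Mathlib

set_option autoImplicit false

namespace Pool.Agent.Results.MP_b358a5_co.Sep

open MvPolynomial

def P (d : ℕ) : Set (MvPolynomial ℕ ℕ) :=
  {p | p ≠ 0 ∧ constantCoeff p = 0 ∧ ∀ n, degreeOf n p ≤ d}

def IsCopy {m k : ℕ} (F : Fin k → MvPolynomial (Fin m) ℕ) (S : Set (MvPolynomial ℕ ℕ))
    (a : Fin m → MvPolynomial ℕ ℕ) : Prop :=
  (∀ v, a v ∈ S) ∧ ∀ l, aeval a (F l) ∈ S

def PR {m k : ℕ} (F : Fin k → MvPolynomial (Fin m) ℕ) (S : Set (MvPolynomial ℕ ℕ)) : Prop :=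
  ∀ (r : ℕ) (c : MvPolynomial ℕ ℕ → Fin r), ∃ a, IsCopy F S a ∧
    ∀ l l', c (aeval a (F l)) = c (aeval a (F l'))

def L (d : ℕ) (p : MvPolynomial ℕ ℕ) : Prop := ∀ s, coeff s p ≠ 0 → d ≤ s.degree

lemma L.mul {d e : ℕ} {p q : MvPolynomial ℕ ℕ} (hp : L d p) (hq : L e q) : L (d + e) (p * q) := by
  intro s hs
  rw [coeff_mul] at hs
  obtain ⟨x, hx, h⟩ := Finset.exists_ne_zero_of_sum_ne_zero hs
  rw [← Finset.HasAntidiagonal.mem_antidiagonal.mp hx, map_add]
  exact add_le_add (hp _ (left_ne_zero_of_mul h)) (hq _ (right_ne_zero_of_mul h))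

lemma L.pow {p : MvPolynomial ℕ ℕ} (i : ℕ) : L 0 (p ^ i) := fun _ _ => Nat.zero_le _

lemma L.one {p : MvPolynomial ℕ ℕ} (h : constantCoeff p = 0) : L 1 p := fun s hs => by
  by_contra hc
  rw [(Finsupp.degree_eq_zero_iff s).mp (by omega)] at hs
  exact hs h

lemma cmul {p q : MvPolynomial ℕ ℕ} {s t : ℕ →₀ ℕ} (hp : coeff s p ≠ 0) (hq : coeff t q ≠ 0) :
    coeff (s + t) (p * q) ≠ 0 := by
  rw [coeff_mul]
  intro h
  exact mul_ne_zero hp hq (Finset.sum_eq_zero_iff.mp h (s, t) (by simp))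

lemma cpow {p : MvPolynomial ℕ ℕ} {s : ℕ →₀ ℕ} (hp : coeff s p ≠ 0) (i : ℕ) :
    coeff (i • s) (p ^ i) ≠ 0 := by
  induction i with
  | zero => simp
  | succ i ih => rw [succ_nsmul, pow_succ]; exact cmul ih hp

def M (p : MvPolynomial ℕ ℕ) (s : ℕ →₀ ℕ) : Prop :=
  coeff s p ≠ 0 ∧ ∀ t, coeff t p ≠ 0 → s.degree ≤ t.degree

noncomputable def col (p : MvPolynomial ℕ ℕ) : Fin 2 :=
  ⟨padicValNat 2 (coeff (Classical.epsilon (M p)) p) % 2, Nat.mod_lt _ two_pos⟩

lemma key {a b R R' : MvPolynomial ℕ ℕ} {d : ℕ} (hR : L (d + 1) R) (hR' : L (d + 1) R')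
    (ha : L d a) (hb : L d b) (s0 : ℕ →₀ ℕ) (h0 : coeff s0 (a + b) ≠ 0) (h1 : s0.degree = d)
    (hd : ∀ s, coeff s a = 0 ∨ coeff s b = 0) : col (R + a + 2 * b) ≠ col (R' + 2 * a + b) := by
  have e1 : ∀ s, coeff s (R + a + 2 * b) = coeff s R + coeff s a + 2 * coeff s b := by
    intro s; simp [two_mul]
  have e2 : ∀ s, coeff s (R' + 2 * a + b) = coeff s R' + 2 * coeff s a + coeff s b := by
    intro s; simp [two_mul]
  rw [coeff_add] at h0
  have m1 : M (R + a + 2 * b) = fun s => coeff s a + coeff s b ≠ 0 ∧ s.degree = d := by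
    ext s
    simp only [M, e1]
    have := hR s; have := ha s; have := hb s
    refine ⟨fun h => ?_, fun h => ⟨by omega, fun t ht => ?_⟩⟩
    · have := h.2 s0 (by omega); omega
    · have := hR t; have := ha t; have := hb t; omega
  have m2 : M (R' + 2 * a + b) = fun s => coeff s a + coeff s b ≠ 0 ∧ s.degree = d := by
    ext s
    simp only [M, e2]
    have := hR' s; have := ha s; have := hb s
    refine ⟨fun h => ?_, fun h => ⟨by omega, fun t ht => ?_⟩⟩
    · have := h.2 s0 (by omega); omega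
    · have := hR' t; have := ha t; have := hb t; omega
  have hs := Classical.epsilon_spec (p := fun s : ℕ →₀ ℕ => coeff s a + coeff s b ≠ 0 ∧ s.degree = d)
    ⟨s0, h0, h1⟩
  simp only [col, m1, m2, e1, e2, ne_eq, Fin.mk.injEq]
  set s := Classical.epsilon fun s : ℕ →₀ ℕ => coeff s a + coeff s b ≠ 0 ∧ s.degree = d
  have r1 : coeff s R = 0 := by have := hR s; omega
  have r2 : coeff s R' = 0 := by have := hR' s; omega
  have hv : ∀ n, n ≠ 0 → padicValNat 2 (2 * n) = padicValNat 2 n + 1 := fun n hn => by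
    rw [padicValNat.mul (by norm_num) hn]; simp [add_comm]
  rcases hd s with h | h <;> simp only [r1, r2, h, zero_add, add_zero, mul_zero] at hs ⊢ <;>
    rw [hv _ hs.1] <;> omega

noncomputable def F (i : ℕ) : Fin 2 → MvPolynomial (Fin 4) ℕ :=
  ![X 0 ^ i * X 1 + X 0 * X 2 + X 0 + 2 * X 1, X 0 ^ i * X 1 + X 0 * X 3 + 2 * X 0 + X 1]

lemma memP {d : ℕ} {p : MvPolynomial ℕ ℕ} (h1 : eval (fun _ => 1) p ≠ 0) (h2 : constantCoeff p = 0)
    (h3 : ∀ n, degreeOf n p ≤ d) : p ∈ P d := ⟨fun e => h1 (by simp [e]), h2, h3⟩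

lemma dadd {d n : ℕ} {p q : MvPolynomial ℕ ℕ} (hp : degreeOf n p ≤ d) (hq : degreeOf n q ≤ d) :
    degreeOf n (p + q) ≤ d := (degreeOf_add_le _ _ _).trans (max_le hp hq)

lemma dX (n u : ℕ) : degreeOf n (X u : MvPolynomial ℕ ℕ) ≤ 1 := by
  rw [degreeOf_X]; split_ifs <;> simp

lemma dm (n i u v : ℕ) : degreeOf n (X u ^ i * X v : MvPolynomial ℕ ℕ) ≤
    (if n = u then i else 0) + if n = v then 1 else 0 := by
  refine (degreeOf_mul_le _ _ _).trans (add_le_add ((degreeOf_pow_le _ _ _).trans ?_) ?_) <;>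
    rw [degreeOf_X] <;> split_ifs <;> simp

lemma copy {i d : ℕ} (hi : 1 ≤ i) (hd : i ≤ d) (v s t : ℕ) (h : v = 0 → i < d) (hs : s ≠ 0)
    (ht : t ≠ 0) : IsCopy (F i) (P d) ![X 0, X v, X s, X t] := by
  have a1 : ∀ n u, degreeOf n (X u : MvPolynomial ℕ ℕ) ≤ d := fun n u => (dX n u).trans (by omega)
  have a2 : ∀ n, degreeOf n (X 0 ^ i * X v : MvPolynomial ℕ ℕ) ≤ d := fun n =>
    (dm n i 0 v).trans (by split_ifs <;> omega)
  have a3 : ∀ n u, u ≠ 0 → degreeOf n (X 0 * X u : MvPolynomial ℕ ℕ) ≤ d := fun n u hu => by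
    have := dm n 1 0 u
    rw [pow_one] at this
    exact this.trans (by split_ifs <;> omega)
  refine ⟨fun u => ?_, fun l => ?_⟩
  · fin_cases u <;> exact memP (by simp) (by simp) fun n => a1 n _
  · fin_cases l <;> simp only [F, two_mul] <;>
      refine memP (by simp) (by simp) fun n => ?_
    · simpa using dadd (dadd (dadd (a2 n) (a3 n s hs)) (a1 n 0)) (dadd (a1 n v) (a1 n v))
    · simpa using dadd (dadd (dadd (a2 n) (a3 n t ht)) (dadd (a1 n 0) (a1 n 0))) (a1 n v)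

theorem result (i j : ℕ) (hi : 1 ≤ i) (hij : i < j) :
    ∃ (m k : ℕ) (F : Fin k → MvPolynomial (Fin m) ℕ), (∀ l, constantCoeff (F l) = 0) ∧
      (∃ a, IsCopy F (P i) a) ∧ PR F (P j) ∧ ¬ PR F (P i) ∧
      ∀ (r : ℕ) (c : MvPolynomial ℕ ℕ → Fin r), ∃ a, IsCopy F (P j) a ∧
        (∀ l l', c (aeval a (F l)) = c (aeval a (F l'))) ∧
        Function.Injective fun l => aeval a (F l) := by
  have h4 : ∀ (r : ℕ) (c : MvPolynomial ℕ ℕ → Fin r), ∃ a, IsCopy (F i) (P j) a ∧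
      (∀ l l', c (aeval a (F i l)) = c (aeval a (F i l'))) ∧
      Function.Injective fun l => aeval a (F i l) := by
    intro r c
    let g : ℕ → MvPolynomial ℕ ℕ := fun s => X 0 ^ i * X 0 + 3 * X 0 + X 0 * X (s + 1)
    obtain ⟨s, t, hst, h⟩ := Finite.exists_ne_map_eq_of_infinite fun s => c (g s)
    have e0 : aeval ![X 0, X 0, X (s + 1), X (t + 1)] (F i 0) = g s := by
      simp [F, g, map_ofNat]; ring
    have e1 : aeval ![X 0, X 0, X (s + 1), X (t + 1)] (F i 1) = g t := by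
      simp [F, g, map_ofNat]; ring
    have hg : g s ≠ g t := fun e => hst (by simpa [g] using e)
    refine ⟨_, copy hi hij.le 0 (s + 1) (t + 1) (fun _ => hij) (by omega) (by omega), ?_, ?_⟩
    · simp only [Fin.forall_fin_two, e0, e1, h, and_self]
    · simp only [Function.Injective, Fin.forall_fin_two, e0, e1, hg, hg.symm]
      simp
  refine ⟨4, 2, F i, fun l => ?_, ⟨_, copy hi le_rfl 1 2 3 (by omega) (by omega) (by omega)⟩,
    fun r c => (h4 r c).imp fun a h => ⟨h.1, h.2.1⟩, fun h => ?_, h4⟩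
  · fin_cases l <;> simp [F]
  obtain ⟨a, ⟨h1, h2⟩, h3⟩ := h 2 col
  have hne : (a 0 + a 1).support.Nonempty := support_nonempty.mpr fun e => (h1 0).1 (by
    ext s; have := congrArg (coeff s) e; simp at this; simp [this.1])
  obtain ⟨s0, h5, h6⟩ := Finset.exists_min_image _ (fun s => s.degree) hne
  have la : L s0.degree (a 0) := fun s hs => h6 s (by simp [hs])
  have lb : L s0.degree (a 1) := fun s hs => h6 s (by simp [hs])
  have lR : ∀ u, L (s0.degree + 1) (a 0 ^ i * a 1 + a 0 * a u) := fun u s hs => by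
    obtain ⟨i, rfl⟩ := Nat.exists_eq_add_of_le' hi
    have b1 := ((L.pow (p := a 0) i).mul la).mul (L.one (h1 1).2.1) s
    have b2 := la.mul (L.one (h1 u).2.1) s
    rw [coeff_add, pow_succ] at hs
    omega
  refine key (lR 2) (lR 3) la lb s0 (mem_support_iff.mp h5) rfl (fun s => ?_)
    (by simpa [F, map_ofNat] using h3 0 1)
  by_contra hc
  push Not at hc
  have c1 := cmul (cpow hc.1 i) hc.2
  have c2 : s ≠ 0 := fun e => hc.1 (by rw [e]; exact (h1 0).2.1)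
  obtain ⟨n, hn⟩ := Finsupp.ne_iff.mp c2
  have c3 := monomial_le_degreeOf n (f := aeval a (F i 0)) (m := i • s + s) (by simp [F, c1])
  have c4 := c3.trans ((h2 0).2.2 n)
  simp at c4 hn
  have := Nat.pos_of_ne_zero hn
  nlinarith

end Pool.Agent.Results.MP_b358a5_co.Sep
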